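import Pool.Agent.Helper91.IP.Defs

/-!
IP-C3a: the projections `PF S` and the translations `Rm g`, `Lm g` on the levels.
-/

namespace Pool.Agent.Helper12.IP

open Finset Equiv Matrix Pool.Agent.Helper91.IP

variable {V : Type} [Fintype V] [DecidableEq V]

theorem C3a_Rm_apply (g : Perm V) (f : Perm V → ℝ) (s : Perm V) : (Rm g *ᵥ f) s = f (s * g) := by
  simp only [Matrix.mulVec, dotProduct, Rm, ite_mul, one_mul, zero_mul]
  rw [Finset.sum_ite_eq' univ (s * g) f]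
  simp

theorem C3a_Lm_apply (g : Perm V) (f : Perm V → ℝ) (s : Perm V) : (Lm g *ᵥ f) s = f (g * s) := by
  simp only [Matrix.mulVec, dotProduct, Lm, ite_mul, one_mul, zero_mul]
  rw [Finset.sum_ite_eq' univ (g * s) f]
  simp

theorem C3a_Rm_mul (g h : Perm V) : Rm g * Rm h = Rm (g * h) := by
  ext s s'
  rw [Matrix.mul_apply]
  simp only [Rm, ite_mul, one_mul, zero_mul]
  rw [Finset.sum_ite_eq' univ (s * g) (fun s'' => if s' = s'' * h then (1 : ℝ) else 0)]
  simp [mul_assoc]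

theorem C3a_Rm_transpose (g : Perm V) : (Rm g)ᵀ = Rm g⁻¹ := by
  ext s s'
  simp only [Matrix.transpose_apply, Rm]
  by_cases h : s = s' * g
  · have h' : s' = s * g⁻¹ := by rw [h, mul_inv_cancel_right]
    rw [if_pos h, if_pos h']
  · have h' : ¬ s' = s * g⁻¹ := fun e => h (by rw [e, inv_mul_cancel_right])
    rw [if_neg h, if_neg h']

theorem C3a_mem_fixS {S : Finset V} {g : Perm V} : g ∈ fixS S ↔ ∀ i ∈ S, g i = i := by
  simp [fixS]

theorem C3a_one_mem (S : Finset V) : (1 : Perm V) ∈ fixS S := by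
  rw [C3a_mem_fixS]
  intro i _
  rfl

theorem C3a_mul_mem {S : Finset V} {g h : Perm V} (hg : g ∈ fixS S) (hh : h ∈ fixS S) :
    g * h ∈ fixS S := by
  rw [C3a_mem_fixS] at *
  intro i hi
  rw [Perm.mul_apply, hh i hi, hg i hi]

theorem C3a_inv_mem {S : Finset V} {g : Perm V} (hg : g ∈ fixS S) : g⁻¹ ∈ fixS S := by
  rw [C3a_mem_fixS] at *
  intro i hi
  rw [Perm.inv_eq_iff_eq, hg i hi]

theorem C3a_card_ne (S : Finset V) : ((fixS S).card : ℝ) ≠ 0 := by
  have : (fixS S).card ≠ 0 := Finset.card_ne_zero.2 ⟨1, C3a_one_mem S⟩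
  exact_mod_cast this

/-- translation of a sum over `fixS S` -/
theorem C3a_sum_mul_left {M : Type*} [AddCommMonoid M] {S : Finset V} {g : Perm V}
    (hg : g ∈ fixS S) (F : Perm V → M) : ∑ h ∈ fixS S, F (g * h) = ∑ h ∈ fixS S, F h := by
  refine Finset.sum_bij (fun h _ => g * h) (fun h hh => C3a_mul_mem hg hh)
    (fun a _ b _ hab => mul_left_cancel hab) (fun b hb => ?_) (fun _ _ => rfl)
  exact ⟨g⁻¹ * b, C3a_mul_mem (C3a_inv_mem hg) hb, by rw [mul_inv_cancel_left]⟩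

theorem C3a_sum_inv {M : Type*} [AddCommMonoid M] (S : Finset V)
    (F : Perm V → M) : ∑ h ∈ fixS S, F h⁻¹ = ∑ h ∈ fixS S, F h := by
  refine Finset.sum_bij (fun h _ => h⁻¹) (fun h hh => C3a_inv_mem hh)
    (fun a _ b _ hab => inv_injective hab) (fun b hb => ?_) (fun _ _ => rfl)
  exact ⟨b⁻¹, C3a_inv_mem hb, inv_inv b⟩

theorem C3a_PF_apply (S : Finset V) (f : Perm V → ℝ) (s : Perm V) :
    (PF S *ᵥ f) s = ((fixS S).card : ℝ)⁻¹ * ∑ g ∈ fixS S, f (s * g) := by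
  unfold PF
  rw [Matrix.smul_mulVec, Matrix.sum_mulVec]
  simp only [Pi.smul_apply, Finset.sum_apply, smul_eq_mul, C3a_Rm_apply]

theorem PF_isSymm (S : Finset V) : (PF S).IsSymm := by
  unfold Matrix.IsSymm PF
  rw [Matrix.transpose_smul, Matrix.transpose_sum]
  simp only [C3a_Rm_transpose]
  rw [C3a_sum_inv S (fun g => (Rm g : Matrix (Perm V) (Perm V) ℝ))]

theorem PF_idem (S : Finset V) : PF S * PF S = PF S := by
  unfold PF
  rw [Matrix.smul_mul, Matrix.mul_smul, Finset.sum_mul_sum]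
  simp only [C3a_Rm_mul]
  have h : ∑ g ∈ fixS S, ∑ h ∈ fixS S, (Rm (g * h) : Matrix (Perm V) (Perm V) ℝ) =
      ((fixS S).card : ℝ) • ∑ h ∈ fixS S, Rm h := by
    rw [Finset.sum_congr rfl fun g hg => C3a_sum_mul_left hg
      (fun h => (Rm h : Matrix (Perm V) (Perm V) ℝ)), Finset.sum_const, Nat.cast_smul_eq_nsmul]
  rw [h, smul_smul _ ((fixS S).card : ℝ), inv_mul_cancel₀ (C3a_card_ne S), one_smul]

theorem PF_mem (S : Finset V) (f : Perm V → ℝ) : PF S *ᵥ f ∈ Fs S := by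
  intro s s' h
  rw [C3a_PF_apply, C3a_PF_apply]
  congr 1
  have hk : s⁻¹ * s' ∈ fixS S := by
    rw [C3a_mem_fixS]
    intro i hi
    rw [Perm.mul_apply, Perm.inv_eq_iff_eq]
    exact (h i hi).symm
  have h1 := C3a_sum_mul_left hk (fun g => f (s * g))
  rw [← h1]
  refine Finset.sum_congr rfl fun g _ => ?_
  rw [← mul_assoc, mul_inv_cancel_left]

theorem PF_of_mem (S : Finset V) {f : Perm V → ℝ} (hf : f ∈ Fs S) : PF S *ᵥ f = f := by
  funext s
  rw [C3a_PF_apply]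
  have h : ∀ g ∈ fixS S, f (s * g) = f s := by
    intro g hg
    refine hf _ _ fun i hi => ?_
    rw [Perm.mul_apply, C3a_mem_fixS.1 hg i hi]
  rw [Finset.sum_congr rfl h, Finset.sum_const, nsmul_eq_mul, ← mul_assoc,
    inv_mul_cancel₀ (C3a_card_ne S), one_mul]

theorem Rm_Vl (g : Perm V) (j : ℕ) {f : Perm V → ℝ} (hf : f ∈ Vl V j) : Rm g *ᵥ f ∈ Vl V j := by
  have h : Vl V j ≤ (Vl V j).comap (Matrix.mulVecLin (Rm g)) := by
    unfold Vl
    refine iSup_le fun S f hf => ?_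
    have hc : ((S : Finset V).image g).card ≤ j := Finset.card_image_le.trans S.2
    refine (le_iSup (fun S : {S : Finset V // S.card ≤ j} => Fs (S : Finset V))
      ⟨(S : Finset V).image g, hc⟩) ?_
    intro s s' h
    change (Rm g *ᵥ f) s = (Rm g *ᵥ f) s'
    rw [C3a_Rm_apply, C3a_Rm_apply]
    refine hf _ _ fun i hi => ?_
    rw [Perm.mul_apply, Perm.mul_apply]
    exact h (g i) (Finset.mem_image_of_mem _ hi)
  exact h hf

theorem Lm_Vl (g : Perm V) (j : ℕ) {f : Perm V → ℝ} (hf : f ∈ Vl V j) : Lm g *ᵥ f ∈ Vl V j := by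
  have h : Vl V j ≤ (Vl V j).comap (Matrix.mulVecLin (Lm g)) := by
    unfold Vl
    refine iSup_le fun S f hf => ?_
    refine (le_iSup (fun S : {S : Finset V // S.card ≤ j} => Fs (S : Finset V)) S) ?_
    intro s s' h
    change (Lm g *ᵥ f) s = (Lm g *ᵥ f) s'
    rw [C3a_Lm_apply, C3a_Lm_apply]
    refine hf _ _ fun i hi => ?_
    rw [Perm.mul_apply, Perm.mul_apply, h i hi]
  exact h hf

theorem PF_Vl (S : Finset V) (j : ℕ) {f : Perm V → ℝ} (hf : f ∈ Vl V j) : PF S *ᵥ f ∈ Vl V j := by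
  unfold PF
  rw [Matrix.smul_mulVec, Matrix.sum_mulVec]
  exact Submodule.smul_mem _ _ (Submodule.sum_mem _ fun g _ => Rm_Vl g j hf)

end Pool.Agent.Helper12.IP
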